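import Mathlib
import Pool.Agent.Y916.Sch.Ell

/-!
# Translates of the points of the Lie algebra of products of different elliptic curves and tori by logarithms of algebraic
points (adapted from the starting file `Pool.Agent.Y916.Sch.Ell`, one lattice)
-/

set_option autoImplicit false

open Module
open scoped PeriodPair

namespace Pool.Agent.Run7.h643.MT

open Pool.Agent.Y916 Pool.Agent.Y916.Sch

/-- the numbers `u_i, ζ(u_i), t_i` -/
noncomputable def X3 {ι : Type} (Λ : ι → PeriodPair) (u t : ι → ℂ) : ι × Fin 3 → ℂ :=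
  fun a => ![u a.1, H667R3.zeta (Λ a.1) (u a.1), t a.1] a.2

/-- the numbers `℘(u_i), ℘'(u_i), exp(t_i)` -/
noncomputable def E3 {ι : Type} (Λ : ι → PeriodPair) (u t : ι → ℂ) : ι × Fin 3 → ℂ :=
  fun a => ![℘[Λ a.1] (u a.1), ℘'[Λ a.1] (u a.1), Complex.exp (t a.1)] a.2

/-- relations of bounded degree are identities in `u_i, ζ(u_i), t_i` -/
def FrE {ι : Type} (Λ : ι → PeriodPair) (δ d : ℕ) {υ : Type} (w : υ → ℂ) (u t : ι → ℂ) : Prop :=
  ∀ L : IntermediateField ℚ ℂ, FiniteDimensional ℚ L → finrank ℚ L ≤ d →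
  ∀ P : MvPolynomial (υ ⊕ ((ι × Fin 3) ⊕ (ι × Fin 3))) L, P.totalDegree ≤ δ →
  MvPolynomial.aeval (Sum.elim w (Sum.elim (X3 Λ u t) (E3 Λ u t))) P = 0 →
  ∀ y : ι × Fin 3 → ℂ, MvPolynomial.aeval (Sum.elim w (Sum.elim y (E3 Λ u t))) P = 0

/-- the constants -/
noncomputable def cE {ι : Type} (Λ : ι → PeriodPair) {υ : Type} (w : υ → ℂ) (z s : ι → ℂ) :
    υ ⊕ (ι × Fin 6) → ℂ := Sum.elim w fun a => ![z a.1, s a.1, ℘[Λ a.1] (z a.1), ℘'[Λ a.1] (z a.1),
      zt (Λ a.1) (z a.1), Complex.exp (s a.1)] a.2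

/-- the constants and `1` -/
noncomputable def cE1 {ι : Type} (Λ : ι → PeriodPair) {υ : Type} (w : υ → ℂ) (z s : ι → ℂ) :
    Option (υ ⊕ (ι × Fin 6)) → ℂ := fun o => o.elim 1 (cE Λ w z s)

/-- the relation between elliptic logarithms and logarithms -/
theorem ell_rel {ι : Type} [Fintype ι] (Λ : ι → PeriodPair) (a b : ι → ℚ) (ha : ∀ i, (Λ i).g₂ = a i)
    (hb : ∀ i, (Λ i).g₃ = b i) {υ : Type} [Fintype υ] {n m δ d : ℕ} (hm : 1 ≤ m) (hn : Fintype.card ι = n)
    (w : υ → ℂ) (z s α : ι → ℂ)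
    (hα : ∀ i, ∃ K : IntermediateField ℚ ℂ, FiniteDimensional ℚ K ∧ finrank ℚ K ≤ m ∧ α i ∈ K)
    (u t : ι → ℂ) (hu : ∀ i, u i ∉ (Λ i).lattice) (hp : ∀ i, u i - z i ∉ (Λ i).lattice) (hpα : ∀ i, ℘[Λ i] (u i - z i) = α i)
    (ht : ∀ i, Complex.exp (t i - s i) = α i) (h2 : ∀ i, 4 * α i ^ 3 - a i * α i - b i ≠ 0)
    (hne : ∀ i, z i ∉ (Λ i).lattice → ℘[Λ i] (z i) ≠ α i) (hF : ¬ FrE Λ δ d w u t) :
    Hy.RelL δ (d * (2 * m) ^ (2 * n)) ((Submodule.span ℚ (Set.range (cE1 Λ w z s))) ^ ((5 * n + 1) * δ))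
      (X3 Λ (fun i => u i - z i) fun i => t i - s i) := by
  classical
  simp only [FrE, not_forall] at hF
  obtain ⟨L, hL1, hL2, P, hP1, hP2, y₀, hy₀⟩ := hF
  set p : ι → ℂ := fun i => u i - z i with hpdef
  have hsq : ∀ i, ℘'[Λ i] (p i) ^ 2 = 4 * α i ^ 3 - a i * α i - b i := by
    intro i
    have h := (Λ i).derivWeierstrassP_sq (p i) (hp i)
    rw [ha i, hb i] at h
    rw [h, show ℘[Λ i] (p i) = α i from hpα i]
  have h2p : ∀ i, 2 * p i ∉ (Λ i).lattice := by
    intro i hi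
    have h3 : ℘'[Λ i] (p i) = 0 := by
      have h5 : ℘'[Λ i] (-p i + 2 * p i) = ℘'[Λ i] (-p i) := (Λ i).derivWeierstrassP_add_coe (-p i) ⟨2 * p i, hi⟩
      rw [(Λ i).derivWeierstrassP_neg, show -p i + 2 * p i = p i by ring] at h5
      have h6 : 2 * ℘'[Λ i] (p i) = 0 := by linear_combination h5
      exact (mul_eq_zero.1 h6).resolve_left two_ne_zero
    have h4 := hsq i
    rw [h3] at h4
    exact h2 i (by rw [← h4]; norm_num)
  have hαd : ∀ i, IsIntegral ℚ (α i) ∧ (minpoly ℚ (α i)).natDegree ≤ m := by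
    intro i
    obtain ⟨K₁, h3, h4, h5⟩ := hα i
    exact deg_mem h3 h4 h5
  have hβd : ∀ i, IsIntegral ℚ (℘'[Λ i] (p i)) ∧ (minpoly ℚ (℘'[Λ i] (p i))).natDegree ≤ 2 * m := by
    intro i
    obtain ⟨K₁, h3, h4, h5⟩ := hα i
    refine deg_sqrt (hsq i) (deg_mem h3 h4 ?_)
    have ha' : ((a i : ℚ) : ℂ) ∈ K₁ := by
      have := K₁.algebraMap_mem (a i)
      simpa using this
    have hb' : ((b i : ℚ) : ℂ) ∈ K₁ := by
      have := K₁.algebraMap_mem (b i)
      simpa using this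
    have h4' : (4 : ℂ) ∈ K₁ := by exact_mod_cast natCast_mem K₁ 4
    exact sub_mem (sub_mem (mul_mem h4' (pow_mem h5 3)) (mul_mem ha' h5)) hb'
  obtain ⟨K, hK1, hK2, hK3, hK4⟩ := Pool.Agent.Y916.Om.field L hL1 (2 * m)
      (Finset.univ.image α ∪ Finset.univ.image fun i => ℘'[Λ i] (p i)) (by
    intro v hv
    rcases Finset.mem_union.1 hv with hv | hv
    · obtain ⟨i, -, rfl⟩ := Finset.mem_image.1 hv
      exact ⟨(hαd i).1, (hαd i).2.trans (by omega)⟩
    · obtain ⟨i, -, rfl⟩ := Finset.mem_image.1 hv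
      exact hβd i)
  have hαK : ∀ i, α i ∈ K := fun i =>
    hK2 (IntermediateField.subset_adjoin ℚ _ (Finset.mem_coe.2 (Finset.mem_union_left _
      (Finset.mem_image_of_mem α (Finset.mem_univ i)))))
  have hβK : ∀ i, ℘'[Λ i] (p i) ∈ K := fun i =>
    hK2 (IntermediateField.subset_adjoin ℚ _ (Finset.mem_coe.2 (Finset.mem_union_right _
      (Finset.mem_image_of_mem (fun i => ℘'[Λ i] (p i)) (Finset.mem_univ i)))))
  have hKd : finrank ℚ K ≤ d * (2 * m) ^ (2 * n) := by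
    refine hK4.trans (Nat.mul_le_mul hL2 (Nat.pow_le_pow_right (by omega) ?_))
    refine (Finset.card_union_le _ _).trans ?_
    have h3 := Finset.card_image_le (s := (Finset.univ : Finset (ι))) (f := α)
    have h4 := Finset.card_image_le (s := (Finset.univ : Finset (ι))) (f := fun i => ℘'[Λ i] (p i))
    rw [Finset.card_univ, hn] at h3 h4
    omega
  have hgK : ∀ i, (Λ i).g₂ ∈ K := by
    intro i
    rw [ha i]
    have := K.algebraMap_mem (a i)
    simpa using this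
  set W : Submodule ℚ ℂ := Submodule.span ℚ (Set.range (cE1 Λ w z s)) with hW
  set V : Submodule K ℂ := Submodule.span K (W : Set ℂ) with hV
  have hWV : ∀ {x : ℂ}, x ∈ W → x ∈ V := fun hx => Submodule.subset_span hx
  have h1V : (1 : ℂ) ∈ V := hWV (Submodule.subset_span ⟨none, rfl⟩)
  have hcV : ∀ (i : ι) (c : Fin 6), (![z i, s i, ℘[Λ i] (z i), ℘'[Λ i] (z i), zt (Λ i) (z i),
      Complex.exp (s i)] : Fin 6 → ℂ) c ∈ V := fun i c => hWV (Submodule.subset_span ⟨some (Sum.inr (i, c)), rfl⟩)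
  have hwV : ∀ j, w j ∈ V := fun j => hWV (Submodule.subset_span ⟨some (Sum.inl j), rfl⟩)
  have hpz : ∀ i, z i + p i = u i := fun i => by
    rw [hpdef]
    ring
  have hadd : ∀ i, ∃ D : ℂ, D ≠ 0 ∧ D ∈ V ^ 5 ∧ D * ℘[Λ i] (u i) ∈ V ^ 5 ∧ D * ℘'[Λ i] (u i) ∈ V ^ 5 ∧
      D * (H667R3.zeta (Λ i) (u i) - H667R3.zeta (Λ i) (p i)) ∈ V ^ 5 := by
    intro i
    have h3 := add_den (Λ i) h1V (z := z i) (hp i) (h2p i) (by
      rw [show z i + (u i - z i) = u i by ring]
      exact hu i) (fun hz => by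
        rw [hpα i]
        exact hne i hz) (by rw [hpα i]; exact hαK i) (hβK i) (hgK i) (hcV i 2) (hcV i 3) (fun hz => by
        have h := hcV i 4
        have h5 : zt (Λ i) (z i) = H667R3.zeta (Λ i) (z i) := if_neg hz
        rw [← h5]
        exact h) (fun hz => by
        have h := hcV i 4
        have h5 : zt (Λ i) (z i) = H667R3.eta (Λ i) (z i) := if_pos hz
        rw [← h5]
        exact h)
    rwa [show z i + (u i - z i) = u i by ring] at h3
  choose D hD0 hD1 hD2 hD3 hD4 using hadd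
  have hDt : ∏ i, D i ∈ V ^ (5 * n) := by
    have := prod_memV (V := V) Finset.univ 5 D hD1
    rwa [Finset.card_univ, hn] at this
  have hDt0 : ∏ i, D i ≠ 0 := Finset.prod_ne_zero_iff.2 fun i _ => hD0 i
  have hDx : ∀ (i : ι) (x : ℂ), D i * x ∈ V ^ 5 → (∏ j, D j) * x ∈ V ^ (5 * n + 1) := by
    intro i x hx
    have h3 : (∏ j, D j) * x = (D i * x) * ∏ j ∈ Finset.univ.erase i, D j := by
      rw [← Finset.mul_prod_erase Finset.univ D (Finset.mem_univ i)]
      ring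
    have h4 := prod_memV (V := V) (Finset.univ.erase i) 5 D hD1
    rw [Finset.card_erase_of_mem (Finset.mem_univ i), Finset.card_univ, hn] at h4
    rw [h3]
    refine pow_le h1V (?_ : 5 + 5 * (n - 1) ≤ 5 * n + 1) ?_
    · have := Fintype.card_pos_iff.2 ⟨i⟩
      omega
    · rw [pow_add]
      exact Submodule.mul_mem_mul hx h4
  have hDv : ∀ x : ℂ, x ∈ V → (∏ j, D j) * x ∈ V ^ (5 * n + 1) := by
    intro x hx
    rw [pow_add, pow_one]
    exact Submodule.mul_mem_mul hDt hx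
  let sh : ι × Fin 3 → ℂ := fun c => ![z c.1, H667R3.zeta (Λ c.1) (u c.1) - H667R3.zeta (Λ c.1) (p c.1), s c.1] c.2
  let g : υ ⊕ ((ι × Fin 3) ⊕ (ι × Fin 3)) → MvPolynomial (ι × Fin 3) ℂ :=
    Sum.elim (fun j => MvPolynomial.C (w j)) (Sum.elim (fun c => MvPolynomial.X c + MvPolynomial.C (sh c))
      fun c => MvPolynomial.C (E3 Λ u t c))
  have hg : ∀ c, Co V (5 * n + 1) (MvPolynomial.C (∏ j, D j) * g c) := by
    rintro (j | ⟨i, c⟩ | ⟨i, c⟩)
    · show Co V (5 * n + 1) (MvPolynomial.C (∏ j, D j) * MvPolynomial.C (w j))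
      rw [← MvPolynomial.C_mul]
      exact Co.C (hDv _ (hwV j))
    · show Co V (5 * n + 1) (MvPolynomial.C (∏ j, D j) * (MvPolynomial.X (i, c) + MvPolynomial.C (sh (i, c))))
      rw [mul_add, ← MvPolynomial.C_mul]
      refine Co.add ?_ (Co.C ?_)
      · have h3 := (Co.C (κ := ι × Fin 3) (V := V) hDt).mul (Co.X (V := V) (i, c))
        exact h3.mono h1V (by omega)
      · fin_cases c
        · exact hDv _ (hcV i 0)
        · exact hDx i _ (hD4 i)
        · exact hDv _ (hcV i 1)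
    · show Co V (5 * n + 1) (MvPolynomial.C (∏ j, D j) * MvPolynomial.C (E3 Λ u t (i, c)))
      rw [← MvPolynomial.C_mul]
      refine Co.C ?_
      fin_cases c
      · exact hDx i _ (hD2 i)
      · exact hDx i _ (hD3 i)
      · show (∏ j, D j) * Complex.exp (t i) ∈ V ^ (5 * n + 1)
        have h3 : Complex.exp (t i) = α i * Complex.exp (s i) := by
          rw [← ht i, ← Complex.exp_add]
          congr 1
          ring
        rw [h3, show (∏ j, D j) * (α i * Complex.exp (s i)) = α i * ((∏ j, D j) * Complex.exp (s i)) by ring]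
        exact smul_mem' (hαK i) (hDv _ (hcV i 5))
  have hgd : ∀ c, (g c).totalDegree ≤ 1 := by
    rintro (j | c | c)
    · show (MvPolynomial.C (w j) : MvPolynomial (ι × Fin 3) ℂ).totalDegree ≤ 1
      rw [MvPolynomial.totalDegree_C]
      exact Nat.zero_le _
    · show (MvPolynomial.X c + MvPolynomial.C (sh c) : MvPolynomial (ι × Fin 3) ℂ).totalDegree ≤ 1
      refine (MvPolynomial.totalDegree_add _ _).trans (max_le (MvPolynomial.totalDegree_X _).le ?_)
      rw [MvPolynomial.totalDegree_C]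
      exact Nat.zero_le _
    · show (MvPolynomial.C (E3 Λ u t c) : MvPolynomial (ι × Fin 3) ℂ).totalDegree ≤ 1
      rw [MvPolynomial.totalDegree_C]
      exact Nat.zero_le _
  have hev : ∀ y : ι × Fin 3 → ℂ, MvPolynomial.aeval y (MvPolynomial.aeval g P) =
      MvPolynomial.aeval (Sum.elim w (Sum.elim (fun c => y c + sh c) (E3 Λ u t))) P := by
    intro y
    have h3 : ((MvPolynomial.aeval y : MvPolynomial (ι × Fin 3) ℂ →ₐ[ℂ] ℂ).restrictScalars L).comp
        (MvPolynomial.aeval g : MvPolynomial (υ ⊕ ((ι × Fin 3) ⊕ (ι × Fin 3))) L →ₐ[L] MvPolynomial (ι × Fin 3) ℂ) =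
        MvPolynomial.aeval (Sum.elim w (Sum.elim (fun c => y c + sh c) (E3 Λ u t))) := by
      refine MvPolynomial.algHom_ext fun c => ?_
      rcases c with c | c | c
      · simp [g]
      · simp [g]
      · simp [g]
    exact DFunLike.congr_fun h3 P
  have hev2 : ∀ y : ι × Fin 3 → ℂ, MvPolynomial.aeval y
      (MvPolynomial.C ((∏ j, D j) ^ δ) * MvPolynomial.aeval g P) = (∏ j, D j) ^ δ *
      MvPolynomial.aeval (Sum.elim w (Sum.elim (fun c => y c + sh c) (E3 Λ u t))) P := by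
    intro y
    rw [map_mul, hev, MvPolynomial.aeval_C]
    rfl
  refine ⟨K, hK3, hKd, MvPolynomial.C ((∏ j, D j) ^ δ) * MvPolynomial.aeval g P, ?_, deg_aeval L g hgd P hP1 _, ?_, ?_⟩
  · intro h0
    have h3 := hev2 fun c => y₀ c - sh c
    rw [h0, map_zero] at h3
    have h4 := (mul_eq_zero.1 h3.symm).resolve_left (pow_ne_zero _ hDt0)
    apply hy₀
    rw [← h4]
    congr 2
    funext c
    rcases c with c | c | c
    · rfl
    · simp
    · rfl
  · intro c
    exact span_pow_le W _ (co_sub L hK1 V h1V (5 * n + 1) δ _ (pow_le h1V (by omega) hDt) g hg P hP1 c)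
  · rw [hev2]
    have h3 : (fun c => X3 Λ (fun i => u i - z i) (fun i => t i - s i) c + sh c) = X3 Λ u t := by
      funext ⟨i, c⟩
      fin_cases c
      · show u i - z i + z i = u i
        ring
      · show H667R3.zeta (Λ i) (u i - z i) + (H667R3.zeta (Λ i) (u i) - H667R3.zeta (Λ i) (p i)) = H667R3.zeta (Λ i) (u i)
        rw [hpdef]
        ring
      · show t i - s i + s i = t i
        ring
    rw [h3, hP2, mul_zero]

end Pool.Agent.Run7.h643.MT
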