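import Mathlib
import Pool.Agent.Run7.h643.MT.Rel
import Pool.Agent.Run7.h643.MW.EllMix
import Pool.Agent.R351.GD.S.SchE

/-!
# Translates of the points of the Lie algebra of products of different elliptic curves and tori: windows chosen one after
the other
-/

set_option autoImplicit false

open Module
open scoped PeriodPair

namespace Pool.Agent.Run7.h643.MT

open Pool.Agent.Y113 Pool.Agent.Y916 Pool.Agent.Y916.AW Pool.Agent.Y916.Al Pool.Agent.Y916.Hy Pool.Agent.Y916.Sa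
open Pool.Agent.Y916.Fld Pool.Agent.Y916.Sl Pool.Agent.R351.GD Pool.Agent.Run7.h643.MX
open Pool.Agent.Y916.Sch (lift_poly deg_mem deg_of_root)

/-- the cubic polynomial of an elliptic curve -/
noncomputable def cub (a b : ℚ) : Polynomial ℂ :=
  Polynomial.C 4 * Polynomial.X ^ 3 - Polynomial.C (a : ℂ) * Polynomial.X - Polynomial.C (b : ℂ)

theorem cub_deg (a b : ℚ) : (cub a b).natDegree ≤ 3 := by
  rw [cub]
  compute_degree

theorem cub_ne (a b : ℚ) : cub a b ≠ 0 := by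
  intro h0
  have h3 : (cub a b).coeff 3 = 4 := by
    rw [cub]
    simp [Polynomial.coeff_X, Polynomial.coeff_C]
  rw [h0, Polynomial.coeff_zero] at h3
  norm_num at h3

open Classical in
/-- the special values of a window -/
noncomputable def spF (Λ : PeriodPair) (a b : ℚ) {r : ℕ} (z : Fin r → ℂ) : Finset ℂ :=
  (cub a b).roots.toFinset ∪ Finset.univ.image fun i => ℘[Λ] (z i)

theorem spF_card (Λ : PeriodPair) (a b : ℚ) {r : ℕ} (z : Fin r → ℂ) : (spF Λ a b z).card ≤ 3 + r := by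
  classical
  refine (Finset.card_union_le _ _).trans (add_le_add ?_ ?_)
  · exact ((Multiset.toFinset_card_le _).trans (Polynomial.card_roots' _)).trans (cub_deg a b)
  · exact Finset.card_image_le.trans (by simp)

open Classical in
/-- the exceptions from the special values -/
noncomputable def spS (Λ : PeriodPair) (a b : ℚ) {r : ℕ} (z : Fin r → ℂ) (H : ℕ) (ξ : ℂ) : Finset ℕ :=
  (Finset.range (H + 1)).filter fun g => ξ + (g : ℂ) ∈ spF Λ a b z

theorem spS_card (Λ : PeriodPair) (a b : ℚ) {r : ℕ} (z : Fin r → ℂ) (H : ℕ) (ξ : ℂ) :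
    (spS Λ a b z H ξ).card ≤ 3 + r := by
  classical
  refine le_trans ?_ (spF_card Λ a b z)
  refine Finset.card_le_card_of_injOn (fun g : ℕ => ξ + (g : ℂ)) (fun g hg => (Finset.mem_filter.1 hg).2) ?_
  intro g _ g' _ h
  have h' : ξ + (g : ℂ) = ξ + (g' : ℂ) := h
  exact_mod_cast add_left_cancel h'

/-- **Translates, windows chosen one after the other** -/
theorem winM {t : ℕ} (L : Fin t → PeriodPair) (a b : Fin t → ℚ) (ha : ∀ j, (L j).g₂ = a j)
    (hb : ∀ j, (L j).g₃ = b j) (r : Fin t → ℕ) (q m A : ℕ) :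
    ∃ E : ℕ → ℕ, PB E ∧ ∀ (δ : ℕ) (w : Fin q → ℂ) (z s : ∀ j, Fin (r j) → ℂ) (H : Fin t → Ch r → ℕ)
      (ξ : Fin t → Ch r → ℂ),
      (∀ j g g', (∀ i, i < j → g i = g' i) → H j g = H j g' ∧ ξ j g = ξ j g') →
      ∃ S : Fin t → Ch r → Finset ℕ,
        (∀ j g, ((S j g).card : Cardinal) ≤
          ((q + 4 + r j + (∑ i, r i) * 6 + ∑ i ∈ Finset.Iio j, r i * 3 : ℕ) : Cardinal) +
          Algebra.trdeg ℚ (IntermediateField.adjoin ℚ (Set.range (perM L)))) ∧
        (∀ j g g', (∀ i, i < j → g i = g' i) → S j g = S j g') ∧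
        ∀ g : Ch r, (∀ j, ((H j g : ℝ) + 2) ^ E δ ≤ ‖ξ j g‖) → (∀ j, Al.Ht m A (ξ j g)) →
          (∀ j, Function.Injective (g j)) →
          (∀ j i, 1 ≤ g j i ∧ g j i ≤ H j g ∧ g j i ∉ S j g) →
          ∀ u l : ∀ j, Fin (r j) → ℂ, (∀ j i, u j i ∉ (L j).lattice ∧ u j i - z j i ∉ (L j).lattice ∧
            ℘[L j] (u j i - z j i) = ξ j g + g j i ∧ Complex.exp (l j i - s j i) = ξ j g + g j i) →
          FrE (fun x : (Σ j, Fin (r j)) => L x.1) δ δ (Sum.elim w (perM L)) (fun x => u x.1 x.2)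
            (fun x => l x.1 x.2) := by
  classical
  obtain ⟨n, hn⟩ : ∃ n, Fintype.card (Σ j, Fin (r j)) = n := ⟨_, rfl⟩
  obtain ⟨E, hEp, hE⟩ := ellMix L a b ha hb r (m + 1) A (Fintype.card (Fin q ⊕ (Σ j, Fin (r j)) × Fin 6))
  refine ⟨fun δ => E (δ * (2 * (m + 1)) ^ (2 * n) + ((5 * n + 1) * δ + δ)), hEp.comp ((PB.id.mul (PB.const _)).add
    (((PB.const (5 * n + 1)).mul PB.id).add PB.id)), fun δ w z s H ξ hdep => ?_⟩
  set e := (5 * n + 1) * δ with he
  let eqv : (Fin q ⊕ (Σ j, Fin (r j)) × Fin 6) ≃ Fin (Fintype.card (Fin q ⊕ (Σ j, Fin (r j)) × Fin 6)) :=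
    Fintype.equivFin _
  set Λ : (Σ j, Fin (r j)) → PeriodPair := fun x => L x.1 with hΛ
  set z' : (Σ j, Fin (r j)) → ℂ := fun x => z x.1 x.2 with hz'
  set s' : (Σ j, Fin (r j)) → ℂ := fun x => s x.1 x.2 with hs'
  set w₁ : (Fin q ⊕ (Σ j, Fin (r j)) × Fin 6) → ℂ := cE Λ w z' s' with hw₁
  obtain ⟨S₁, hS₁, hS₁', hwin⟩ := hE (δ * (2 * (m + 1)) ^ (2 * n) + (e + δ)) (fun j => w₁ (eqv.symm j)) H ξ hdep
  refine ⟨fun j g => S₁ j g ∪ spS (L j) (a j) (b j) (z j) (H j g) (ξ j g), fun j g => ?_, fun j g g' h => ?_,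
    fun g hξ hHt hinj hg u l hul => ?_⟩
  · have h1 : ((S₁ j g ∪ spS (L j) (a j) (b j) (z j) (H j g) (ξ j g)).card : Cardinal) ≤
        ((S₁ j g).card : Cardinal) + ((spS (L j) (a j) (b j) (z j) (H j g) (ξ j g)).card : Cardinal) := by
      exact_mod_cast Finset.card_union_le _ _
    have h2 : ((spS (L j) (a j) (b j) (z j) (H j g) (ξ j g)).card : Cardinal) ≤ ((3 + r j : ℕ) : Cardinal) := by
      exact_mod_cast spS_card _ _ _ _ _ _
    have h3 : Fintype.card (Fin q ⊕ (Σ j, Fin (r j)) × Fin 6) = q + (∑ i, r i) * 6 := by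
      simp
    refine h1.trans ((add_le_add (hS₁ j g) h2).trans (le_of_eq ?_))
    rw [h3]
    push_cast
    ring
  · have h1 := hdep j g g' h
    show S₁ j g ∪ spS (L j) (a j) (b j) (z j) (H j g) (ξ j g) = S₁ j g' ∪ spS (L j) (a j) (b j) (z j) (H j g') (ξ j g')
    rw [hS₁' j g g' h, h1.1, h1.2]
  · by_contra hfr
    have hξd : ∀ j, IsIntegral ℚ (ξ j g) ∧ (minpoly ℚ (ξ j g)).natDegree ≤ m := by
      intro j
      obtain ⟨p, h1, h2, h3, h4⟩ := hHt j
      exact deg_of_root h1 h2 h4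
    have hgF : ∀ j i, ξ j g + (g j i : ℂ) ∉ spF (L j) (a j) (b j) (z j) := by
      intro j i hi
      refine (hg j i).2.2 (Finset.mem_union_right _ (Finset.mem_filter.2 ⟨?_, hi⟩))
      rw [Finset.mem_range]
      have := (hg j i).2.1
      omega
    have hrel := ell_rel Λ (fun x => a x.1) (fun x => b x.1) (fun x => ha x.1) (fun x => hb x.1) (m := m + 1) (by omega)
      hn (Sum.elim w (perM L)) z' s' (fun x => ξ x.1 g + (g x.1 x.2 : ℂ)) (fun x => by
      have hf1 : FiniteDimensional ℚ (IntermediateField.adjoin ℚ {ξ x.1 g}) :=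
        IntermediateField.adjoin.finiteDimensional (hξd x.1).1
      refine ⟨IntermediateField.adjoin ℚ {ξ x.1 g}, hf1, ?_, ?_⟩
      · rw [IntermediateField.adjoin.finrank (hξd x.1).1]
        exact (hξd x.1).2.trans (Nat.le_succ m)
      · exact add_mem (IntermediateField.mem_adjoin_simple_self ℚ (ξ x.1 g)) (natCast_mem _ _))
      (fun x => u x.1 x.2) (fun x => l x.1 x.2) (fun x => (hul x.1 x.2).1) (fun x => (hul x.1 x.2).2.1)
      (fun x => (hul x.1 x.2).2.2.1) (fun x => (hul x.1 x.2).2.2.2) (by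
      intro x h0
      refine hgF x.1 x.2 (Finset.mem_union_left _ ?_)
      rw [Multiset.mem_toFinset, Polynomial.mem_roots (cub_ne _ _), Polynomial.IsRoot.def, cub]
      simpa using h0) (by
      intro x _ h0
      refine hgF x.1 x.2 (Finset.mem_union_right _ ?_)
      rw [← h0]
      exact Finset.mem_image_of_mem (fun i => ℘[L x.1] (z x.1 i)) (Finset.mem_univ x.2)) hfr
    obtain ⟨K, hK1, hK2, P, hP0, hPd, hPc, hPv⟩ := hrel
    obtain ⟨Q, hQ1, hQ2⟩ := lift_poly K (cE1 Λ (Sum.elim w (perM L)) z' s') e δ P hPd hPc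
    -- remove the constant `1`
    let h : Option ((Fin q ⊕ Fin t × Fin 5) ⊕ (Σ j, Fin (r j)) × Fin 6) ⊕ (Σ j, Fin (r j)) × Fin 3 →
        MvPolynomial ((Fin (Fintype.card (Fin q ⊕ (Σ j, Fin (r j)) × Fin 6)) ⊕ Fin t × Fin 5) ⊕
          (Σ j, Fin (r j) × Fin 3)) K :=
      Sum.elim (fun o => o.elim 1 (Sum.elim (Sum.elim
        (fun j => MvPolynomial.X (Sum.inl (Sum.inl (eqv (Sum.inl j)))))
        (fun j => MvPolynomial.X (Sum.inl (Sum.inr j)))) fun c => MvPolynomial.X (Sum.inl (Sum.inl (eqv (Sum.inr c))))))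
        fun c => MvPolynomial.X (Sum.inr ⟨c.1.1, (c.1.2, c.2)⟩)
    have hhd : ∀ c, (h c).totalDegree ≤ 1 := by
      rintro ((_ | (j | j) | c) | c)
      · show (1 : MvPolynomial ((Fin (Fintype.card (Fin q ⊕ (Σ j, Fin (r j)) × Fin 6)) ⊕ Fin t × Fin 5) ⊕
          (Σ j, Fin (r j) × Fin 3)) K).totalDegree ≤ 1
        rw [MvPolynomial.totalDegree_one]
        exact Nat.zero_le _
      · exact (MvPolynomial.totalDegree_X _).le
      · exact (MvPolynomial.totalDegree_X _).le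
      · exact (MvPolynomial.totalDegree_X _).le
      · exact (MvPolynomial.totalDegree_X _).le
    have hev : ∀ y : (Σ j, Fin (r j) × Fin 3) → ℂ, MvPolynomial.aeval
        (Sum.elim (Sum.elim (fun j => w₁ (eqv.symm j)) (perM L)) y) (MvPolynomial.aeval h Q) =
        MvPolynomial.aeval (Sum.elim (cE1 Λ (Sum.elim w (perM L)) z' s') fun c => y ⟨c.1.1, (c.1.2, c.2)⟩) Q := by
      intro y
      have h3 : (MvPolynomial.aeval (Sum.elim (Sum.elim (fun j => w₁ (eqv.symm j)) (perM L)) y) :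
          MvPolynomial ((Fin (Fintype.card (Fin q ⊕ (Σ j, Fin (r j)) × Fin 6)) ⊕ Fin t × Fin 5) ⊕
          (Σ j, Fin (r j) × Fin 3)) K →ₐ[K] ℂ).comp (MvPolynomial.aeval h) =
          MvPolynomial.aeval (Sum.elim (cE1 Λ (Sum.elim w (perM L)) z' s') fun c => y ⟨c.1.1, (c.1.2, c.2)⟩) := by
        refine MvPolynomial.algHom_ext fun c => ?_
        rcases c with (_ | (j | j) | c) | c
        · simp [h, cE1]
        · simp [h, cE1, cE, hw₁]
        · simp [h, cE1, cE]
        · simp [h, cE1, cE, hw₁]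
        · simp [h]
      exact DFunLike.congr_fun h3 Q
    have hdeg : (MvPolynomial.aeval h Q).totalDegree ≤ e + δ := by
      rw [MvPolynomial.aeval_def, MvPolynomial.eval₂_eq]
      refine MvPolynomial.totalDegree_finsetSum_le fun t' ht => ?_
      have h3 : algebraMap K (MvPolynomial ((Fin (Fintype.card (Fin q ⊕ (Σ j, Fin (r j)) × Fin 6)) ⊕ Fin t × Fin 5) ⊕
          (Σ j, Fin (r j) × Fin 3)) K) (Q.coeff t') =
        MvPolynomial.C (Q.coeff t') := rfl
      rw [h3]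
      refine (MvPolynomial.totalDegree_mul _ _).trans ?_
      rw [MvPolynomial.totalDegree_C, zero_add]
      refine (MvPolynomial.totalDegree_finset_prod _ _).trans ?_
      refine le_trans (Finset.sum_le_sum fun i _ => ?_) ((MvPolynomial.le_totalDegree ht).trans hQ1)
      refine (MvPolynomial.totalDegree_pow _ _).trans ?_
      exact (Nat.mul_le_mul_left _ (hhd i)).trans (by rw [mul_one])
    have hid := hwin g hξ (fun j => by
        obtain ⟨p, h1, h2, h3, h4⟩ := hHt j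
        exact ⟨p, h1, h2.trans (Nat.le_succ m), h3, h4⟩) hinj
      (fun j i => ⟨(hg j i).1, (hg j i).2.1, fun h => (hg j i).2.2 (Finset.mem_union_left _ h)⟩)
      (fun j i => u j i - z j i) (fun j i => l j i - s j i)
      (fun j i => ⟨(hul j i).2.1, (hul j i).2.2.1, (hul j i).2.2.2⟩) K hK1
      (hK2.trans (Nat.le_add_right _ _)) (MvPolynomial.aeval h Q) (hdeg.trans (Nat.le_add_left _ _)) (by
        rw [hev, hQ2]
        exact hPv)
    apply hP0
    refine MvPolynomial.funext fun y => ?_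
    rw [map_zero]
    have h4 := congrArg (MvPolynomial.aeval (R := ℂ) fun x : (Σ j, Fin (r j) × Fin 3) => y (⟨x.1, x.2.1⟩, x.2.2)) hid
    rw [map_zero, Af.eval_sub, hev, hQ2] at h4
    exact h4

end Pool.Agent.Run7.h643.MT
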